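import Pool.Agent.helper54.GR3.Spec

/-!
# Project g3: (MP_af9036_an), module CHP: two cells are aligned with each other
-/

set_option autoImplicit false

open Complex Metric Set Filter Topology MeasureTheory
open MPS (om)
open PPS (pre TT fd)
open XPS (Df er dens tau)
open Pool.Agent.helper16.Multibrot

noncomputable section

namespace GR

/-- the pointwise inequality -/
theorem CHP_pt (b h h' : ℂ) : ENNReal.ofReal (‖h‖ + ‖h'‖ - ‖h + h'‖) ≤
    ENNReal.ofReal (‖h‖ + ‖b - h‖ - ‖b‖) + ENNReal.ofReal (‖h'‖ + ‖b - h'‖ - ‖b‖) := by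
  refine le_trans ?_ ENNReal.ofReal_add_le
  apply ENNReal.ofReal_le_ofReal
  have e : b + b = (b - h) + (b - h') + (h + h') := by ring
  have h1 : ‖b‖ + ‖b‖ ≤ ‖b - h‖ + ‖b - h'‖ + ‖h + h'‖ := by
    have e2 : ‖b + b‖ = ‖b‖ + ‖b‖ := by
      rw [← two_mul, norm_mul]
      norm_num
      ring
    rw [← e2, e]
    exact norm_add₃_le
  linarith

theorem CHP (hCHN : CHN_stmt) : CHP_stmt := by
  intro C n c p q G E hC hR hT hX hDf her hE m hm m' hm'
  have hC1 : 1 ≤ C := hC.1
  have hRpos : 0 < R n c q := by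
    unfold R
    exact norm_pos_iff.mpr (hR.ne0 q hR.q1 hR.qp.le)
  set r : ℝ := R n c q / (8 * C) with hr
  have hrR : r ≤ R n c q := by
    rw [hr, div_le_iff₀ (by positivity)]
    nlinarith
  set b : ℂ → ℂ := B n c p q with hb
  have hbm : Measurable b := by
    have : b = fun w => ∑ j ∈ Finset.Icc 1 p, xc n c p q j / A n c j / (w - Z n c j) := by
      funext w
      rfl
    rw [this]
    fun_prop
  have hhm : ∀ k < p, AEMeasurable (tau b G k) (volume.restrict (ball (0 : ℂ) r)) := by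
    intro k hk
    have h1 : ContinuousOn (G k) (ball (0 : ℂ) r) :=
      ((hT.diff k hk).mono (ball_subset_ball hrR)).continuousOn
    have h2 : AEMeasurable (G k) (volume.restrict (ball (0 : ℂ) r)) :=
      h1.aemeasurable measurableSet_ball
    have h3 : AEMeasurable (fun w => b (G k w)) (volume.restrict (ball (0 : ℂ) r)) :=
      hbm.comp_aemeasurable h2
    have h4 : Measurable (deriv (G k)) := measurable_deriv _
    exact (h4.pow_const 2).aemeasurable.mul h3
  have hp : 0 < p := by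
    have := hR.q1
    have := hR.qp
    omega
  have h0 := hhm 0 hp
  have hum : AEMeasurable (fun w => ENNReal.ofReal (‖tau b G m w‖ + ‖tau b G 0 w - tau b G m w‖ -
      ‖tau b G 0 w‖)) (volume.restrict (ball (0 : ℂ) r)) := by
    apply AEMeasurable.ennreal_ofReal
    exact ((hhm m hm).norm.add (h0.sub (hhm m hm)).norm).sub h0.norm
  calc ∫⁻ w in ball (0 : ℂ) r, ENNReal.ofReal (‖tau b G m w‖ + ‖tau b G m' w‖ -
        ‖tau b G m w + tau b G m' w‖)
      ≤ ∫⁻ w in ball (0 : ℂ) r, (ENNReal.ofReal (‖tau b G m w‖ + ‖tau b G 0 w - tau b G m w‖ -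
          ‖tau b G 0 w‖) + ENNReal.ofReal (‖tau b G m' w‖ + ‖tau b G 0 w - tau b G m' w‖ -
          ‖tau b G 0 w‖)) := lintegral_mono fun w => CHP_pt _ _ _
    _ = (∫⁻ w in ball (0 : ℂ) r, ENNReal.ofReal (‖tau b G m w‖ + ‖tau b G 0 w - tau b G m w‖ -
          ‖tau b G 0 w‖)) + ∫⁻ w in ball (0 : ℂ) r, ENNReal.ofReal (‖tau b G m' w‖ +
          ‖tau b G 0 w - tau b G m' w‖ - ‖tau b G 0 w‖) := lintegral_add_left' hum _
    _ ≤ ENNReal.ofReal E + ENNReal.ofReal E :=
        add_le_add (hCHN C n c p q G E hC hR hT hX hDf her hE m hm)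
          (hCHN C n c p q G E hC hR hT hX hDf her hE m' hm')
    _ = 2 * ENNReal.ofReal E := (two_mul _).symm

end GR
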